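import Pool.Agent.helper97.AS.Spec

/-! Row GAL of the project AS (MP_c8175e_co): positions of the letters `b`. -/

set_option autoImplicit false

namespace Pool.Agent.helper97.AS

open Pool.Agent.helper20.LB (Step F IsSq Same Bd co)

lemma GAL_per (f : ℤ → ℤ) (p τ : ℤ) (h : ∀ x, f (x + p) = f x + τ) (k : ℕ) (x : ℤ) :
    f (x + k * p) = f x + k * τ := by
  induction k with
  | zero => simp
  | succ k ih =>
    have e : x + ((k + 1 : ℕ) : ℤ) * p = (x + k * p) + p := by push_cast; ring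
    rw [e, h, ih]
    push_cast
    ring

lemma GAL_least (f : ℤ → ℤ) (p τ : ℤ) (hf : Per f p τ) (hτ : 1 ≤ τ) (i : ℤ) :
    ∃ b, i ≤ f b ∧ ∀ z, i ≤ f z → b ≤ z := by
  have hmono : Monotone f := monotone_int_of_le_succ fun x => (hf.1 x).1
  have hper := GAL_per f p τ hf.2.2
  refine Int.exists_least_of_bdd (P := fun z => i ≤ f z) ?_ ?_
  · refine ⟨0 - (((f 0 - i).toNat + 1 : ℕ) : ℤ) * p, fun z hz => ?_⟩
    by_contra hlt
    have h1 := hmono (le_of_lt (not_le.1 hlt))
    have h2 := hper ((f 0 - i).toNat + 1) (0 - (((f 0 - i).toNat + 1 : ℕ) : ℤ) * p)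
    rw [sub_add_cancel] at h2
    have h3 : (((f 0 - i).toNat + 1 : ℕ) : ℤ) ≤ (((f 0 - i).toNat + 1 : ℕ) : ℤ) * τ := by
      have : (0 : ℤ) ≤ (((f 0 - i).toNat + 1 : ℕ) : ℤ) := Int.natCast_nonneg _
      nlinarith
    have h4 : f 0 - i ≤ (((f 0 - i).toNat : ℕ) : ℤ) := Int.self_le_toNat _
    push_cast at h1 h2 h3
    linarith
  · refine ⟨0 + (((i - f 0).toNat : ℕ) : ℤ) * p, ?_⟩
    have h2 := hper ((i - f 0).toNat) 0
    have h3 : (((i - f 0).toNat : ℕ) : ℤ) ≤ (((i - f 0).toNat : ℕ) : ℤ) * τ := by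
      have : (0 : ℤ) ≤ (((i - f 0).toNat : ℕ) : ℤ) := Int.natCast_nonneg _
      nlinarith
    have h4 : i - f 0 ≤ (((i - f 0).toNat : ℕ) : ℤ) := Int.self_le_toNat _
    show i ≤ f (0 + (((i - f 0).toNat : ℕ) : ℤ) * p)
    rw [h2]
    linarith

theorem GAL : GAL_stmt := by
  intro f p τ hf hτ
  have hmono : Monotone f := monotone_int_of_le_succ fun x => (hf.1 x).1
  choose β hβ using GAL_least f p τ hf hτ
  have hiff : ∀ i x, β i ≤ x ↔ i ≤ f x := fun i x =>
    ⟨fun h => (hβ i).1.trans (hmono h), fun h => (hβ i).2 x h⟩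
  refine ⟨β, hiff, fun i => ?_⟩
  have key : ∀ x, β (i + τ) ≤ x ↔ β i + p ≤ x := by
    intro x
    have e : f x = f (x - p) + τ := by
      have := hf.2.2 (x - p)
      rw [sub_add_cancel] at this
      exact this
    rw [hiff, e, add_le_add_iff_right, ← hiff]
    constructor
    · intro h
      linarith
    · intro h
      linarith
  exact le_antisymm ((key _).2 le_rfl) ((key _).1 le_rfl)

end Pool.Agent.helper97.AS
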